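import Pool.Agent.helper78.HR.Defs

/-!
HR project (MP_58257a_co, S08871), row GR: greedy hitting set.
-/

set_option autoImplicit false

namespace Pool.Agent.helper78.HR

open Finset

theorem greedy {U Z : Type*} [DecidableEq U] [DecidableEq Z] (F : Finset U) (G : Finset Z)
    (S : U → Z → Prop) [∀ u z, Decidable (S u z)] (c : Z → ℝ) (hc : ∀ z, 0 ≤ c z)
    (W N : ℝ) (hN : 0 < N) (hNW : N ≤ W) (hW : ∑ z ∈ G, c z ≤ W)
    (hS : ∀ u ∈ F, N ≤ ∑ z ∈ G.filter (fun z => S u z), c z)
    (m : ℕ) (hm : (F.card : ℝ) * (1 - N / W) ^ m < 1) :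
    ∃ V1 ⊆ G, V1.card ≤ m ∧ ∀ u ∈ F, ∃ z ∈ V1, S u z := by
  have hW0 : 0 < W := lt_of_lt_of_le hN hNW
  induction m generalizing F with
  | zero =>
    have h0 : F.card = 0 := by
      have h1 : (F.card : ℝ) < 1 := by simpa using hm
      have h2 : F.card < 1 := by exact_mod_cast h1
      omega
    rw [Finset.card_eq_zero] at h0
    subst h0
    exact ⟨∅, by simp, by simp, by simp⟩
  | succ m ih =>
    rcases F.eq_empty_or_nonempty with h0 | hne
    · subst h0
      exact ⟨∅, by simp, by simp, by simp⟩
    -- a grid point which hits the fraction `N / W`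
    have key : ∃ z ∈ G, N / W * (F.card : ℝ) ≤ ((F.filter (fun u => S u z)).card : ℝ) := by
      by_contra hcon
      push Not at hcon
      have hFpos : (0 : ℝ) < F.card := by exact_mod_cast hne.card_pos
      have h1 : N * (F.card : ℝ) ≤ ∑ u ∈ F, ∑ z ∈ G.filter (fun z => S u z), c z := by
        calc N * (F.card : ℝ) = ∑ _u ∈ F, N := by rw [Finset.sum_const, nsmul_eq_mul, mul_comm]
          _ ≤ _ := Finset.sum_le_sum hS
      have h2 : ∑ u ∈ F, ∑ z ∈ G.filter (fun z => S u z), c z
          = ∑ z ∈ G, c z * ((F.filter (fun u => S u z)).card : ℝ) := by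
        simp_rw [Finset.sum_filter]
        rw [Finset.sum_comm]
        refine Finset.sum_congr rfl fun z _ => ?_
        rw [← Finset.sum_filter, Finset.sum_const, nsmul_eq_mul, mul_comm]
      -- some weight is positive
      have h3 : ∃ z ∈ G, 0 < c z := by
        by_contra hz
        push Not at hz
        have h4 : ∑ z ∈ G, c z * ((F.filter (fun u => S u z)).card : ℝ) ≤ 0 := by
          apply Finset.sum_nonpos
          intro z hzG
          have := le_antisymm (hz z hzG) (hc z)
          rw [this]; simp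
        have h5 : 0 < N * (F.card : ℝ) := mul_pos hN hFpos
        linarith
      have h6 : ∑ z ∈ G, c z * ((F.filter (fun u => S u z)).card : ℝ)
          < ∑ z ∈ G, c z * (N / W * (F.card : ℝ)) := by
        obtain ⟨z0, hz0, hc0⟩ := h3
        exact Finset.sum_lt_sum (fun z hz => mul_le_mul_of_nonneg_left (hcon z hz).le (hc z))
          ⟨z0, hz0, mul_lt_mul_of_pos_left (hcon z0 hz0) hc0⟩
      rw [← Finset.sum_mul] at h6
      have h7 : (∑ z ∈ G, c z) * (N / W * (F.card : ℝ)) ≤ W * (N / W * (F.card : ℝ)) :=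
        mul_le_mul_of_nonneg_right hW (by positivity)
      have h8 : W * (N / W * (F.card : ℝ)) = N * F.card := by field_simp
      linarith
    obtain ⟨z, hzG, hz⟩ := key
    have hq : 0 ≤ 1 - N / W := by
      rw [sub_nonneg, div_le_one hW0]
      exact hNW
    have hcard : ((F.filter (fun u => ¬ S u z)).card : ℝ) ≤ (F.card : ℝ) * (1 - N / W) := by
      have h1 := Finset.card_filter_add_card_filter_not (s := F) (fun u => S u z)
      have h2 : ((F.filter (fun u => S u z)).card : ℝ) + ((F.filter (fun u => ¬ S u z)).card : ℝ)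
          = (F.card : ℝ) := by exact_mod_cast h1
      linarith
    obtain ⟨V1, hV1, hc1, hh1⟩ := ih (F.filter (fun u => ¬ S u z))
      (fun u hu => hS u (Finset.mem_filter.1 hu).1) (by
        calc ((F.filter (fun u => ¬ S u z)).card : ℝ) * (1 - N / W) ^ m
            ≤ ((F.card : ℝ) * (1 - N / W)) * (1 - N / W) ^ m :=
              mul_le_mul_of_nonneg_right hcard (pow_nonneg hq m)
          _ = (F.card : ℝ) * (1 - N / W) ^ (m + 1) := by ring
          _ < 1 := hm)
    refine ⟨insert z V1, ?_, ?_, ?_⟩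
    · exact Finset.insert_subset hzG hV1
    · exact (Finset.card_insert_le _ _).trans (by omega)
    · intro u hu
      by_cases hs : S u z
      · exact ⟨z, Finset.mem_insert_self _ _, hs⟩
      · obtain ⟨w, hw, hsw⟩ := hh1 u (Finset.mem_filter.2 ⟨hu, hs⟩)
        exact ⟨w, Finset.mem_insert_of_mem hw, hsw⟩

end Pool.Agent.helper78.HR
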